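import Mathlib

namespace Pool.Agent.Results.MP_3b7dc8_lc.Irrational

/-- vertices belong to a player, are stochastic, or are terminal -/
inductive Kind (k : ℕ) where
  | player (i : Fin k)
  | stochastic
  | terminal
  deriving DecidableEq

/-- a turn-based stochastic game with terminal rewards -/
structure Game (k m : ℕ) where
  kind : Fin m → Kind k
  edge : Fin m → Fin m → Prop
  prob : Fin m → Fin m → ℚ
  rew : Fin m → Fin k → ℚ
  init : Fin m
  prob_nonneg : ∀ u v, 0 ≤ prob u v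
  prob_edge : ∀ u v, ¬ edge u v → prob u v = 0
  prob_sum : ∀ u, kind u = .stochastic → ∑ v, prob u v = 1
  rew_mem : ∀ u i, 0 ≤ rew u i ∧ rew u i ≤ 1

variable {k m : ℕ}

/-- a profile of behavioural strategies: history, current vertex, next vertex -/
def Valid (G : Game k m) (τ : List (Fin m) → Fin m → Fin m → ℝ) : Prop :=
  ∀ h u i, G.kind u = .player i →
    (∀ v, 0 ≤ τ h u v) ∧ (∀ v, ¬ G.edge u v → τ h u v = 0) ∧ ∑ v, τ h u v = 1

/-- expected reward of player `i` collected within `n` steps from `u` after history `h` -/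
def val (G : Game k m) (τ : List (Fin m) → Fin m → Fin m → ℝ) (i : Fin k) :
    ℕ → List (Fin m) → Fin m → ℝ
  | 0, _, _ => 0
  | n + 1, h, u =>
    match G.kind u with
    | .terminal => G.rew u i
    | .stochastic => ∑ v, G.prob u v * val G τ i n (u :: h) v
    | .player _ => ∑ v, τ h u v * val G τ i n (u :: h) v

/-- expected payoff -/
noncomputable def pay (G : Game k m) (τ : List (Fin m) → Fin m → Fin m → ℝ) (i : Fin k) : ℝ :=
  ⨆ n, val G τ i n [] G.init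

/-- the stationary profile `σ` is an `ε`-Nash equilibrium with payoffs between `x` and `y` -/
def Good (G : Game k m) (x y : Fin k → ℚ) (ε : ℚ) (σ : Fin m → Fin m → ℝ) : Prop :=
  Valid G (fun _ => σ) ∧ (∀ i, x i ≤ pay G (fun _ => σ) i ∧ pay G (fun _ => σ) i ≤ y i) ∧
  ∀ i τ, Valid G τ → (∀ h u, G.kind u ≠ .player i → τ h u = σ u) →
    pay G τ i ≤ pay G (fun _ => σ) i + ε

/-- 0 start, 1 uA, 2 uB, 3 v, 4 tA, 5 tB, 6 t1, 7 t2 -/
def G0 : Game 4 8 where
  kind := ![.stochastic, .player 0, .player 1, .player 2, .terminal, .terminal, .terminal, .terminal]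
  edge u v := (u, v) ∈ [(0, 1), (0, 2), (1, 4), (1, 3), (2, 5), (2, 3), (3, 6), (3, 7)]
  prob u v := if u = 0 ∧ (v = 1 ∨ v = 2) then 1 / 2 else 0
  rew := ![0, 0, 0, 0, ![0, 0, 1, 0], ![0, 0, 1, 1 / 2], ![0, 1 / 2, 0, 1 / 2], ![1 / 2, 1, 0, 1]]
  init := 0
  prob_nonneg u v := by split_ifs <;> norm_num
  prob_edge := by
    intro u v h
    rw [if_neg]
    rintro ⟨rfl, rfl | rfl⟩ <;> exact h (by decide)
  prob_sum := by
    intro u hu
    fin_cases u <;> simp_all [Fin.sum_univ_eight]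
    norm_num
  rew_mem := by
    intro u i
    fin_cases u <;> fin_cases i <;> simp <;> norm_num

noncomputable def F (i : Fin 4) (s t q q' : ℝ) : ℝ :=
  (s * G0.rew 4 i + (1 - s) * ((1 - q) * G0.rew 6 i + q * G0.rew 7 i)) / 2 +
  (t * G0.rew 5 i + (1 - t) * ((1 - q') * G0.rew 6 i + q' * G0.rew 7 i)) / 2

lemma facts (τ) (hτ : Valid G0 τ) (h : List (Fin 8)) :
    (0 ≤ τ h 1 4 ∧ τ h 1 4 ≤ 1 ∧ τ h 1 = ![0, 0, 0, 1 - τ h 1 4, τ h 1 4, 0, 0, 0]) ∧
    (0 ≤ τ h 2 5 ∧ τ h 2 5 ≤ 1 ∧ τ h 2 = ![0, 0, 0, 1 - τ h 2 5, 0, τ h 2 5, 0, 0]) ∧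
    (0 ≤ τ h 3 7 ∧ τ h 3 7 ≤ 1 ∧ τ h 3 = ![0, 0, 0, 0, 0, 0, 1 - τ h 3 7, τ h 3 7]) := by
  obtain ⟨a1, a2, a3⟩ := hτ h 1 0 rfl
  obtain ⟨b1, b2, b3⟩ := hτ h 2 1 rfl
  obtain ⟨c1, c2, c3⟩ := hτ h 3 2 rfl
  rw [Fin.sum_univ_eight] at a3 b3 c3
  have := a2 0 (by simp [G0]); have := a2 1 (by simp [G0]); have := a2 2 (by simp [G0])
  have := a2 5 (by simp [G0]); have := a2 6 (by simp [G0]); have := a2 7 (by simp [G0])
  have := b2 0 (by simp [G0]); have := b2 1 (by simp [G0]); have := b2 2 (by simp [G0])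
  have := b2 4 (by simp [G0]); have := b2 6 (by simp [G0]); have := b2 7 (by simp [G0])
  have := c2 0 (by simp [G0]); have := c2 1 (by simp [G0]); have := c2 2 (by simp [G0])
  have := c2 3 (by simp [G0]); have := c2 4 (by simp [G0]); have := c2 5 (by simp [G0])
  refine ⟨⟨a1 _, by linarith [a1 3], ?_⟩, ⟨b1 _, by linarith [b1 3], ?_⟩, c1 _, by linarith [c1 6], ?_⟩ <;>
  · funext v
    fin_cases v <;> simp <;> linarith

lemma val_eq (τ) (hτ : Valid G0 τ) (i : Fin 4) (n : ℕ) :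
    val G0 τ i (n + 4) [] 0 = F i (τ [0] 1 4) (τ [0] 2 5) (τ [1, 0] 3 7) (τ [2, 0] 3 7) ∧
    ∀ j, j < 4 → val G0 τ i j [] 0 ≤ F i (τ [0] 1 4) (τ [0] 2 5) (τ [1, 0] 3 7) (τ [2, 0] 3 7) := by
  obtain ⟨⟨s0, s1, e1⟩, ⟨t0, t1, e2⟩, -⟩ := facts τ hτ [0]
  obtain ⟨-, -, q0, q1, e3⟩ := facts τ hτ [1, 0]
  obtain ⟨-, -, p0, p1, e4⟩ := facts τ hτ [2, 0]
  generalize τ [0] 1 4 = s at *
  generalize τ [0] 2 5 = t at *
  generalize τ [1, 0] 3 7 = q at *
  generalize τ [2, 0] 3 7 = p at *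
  have k0 : G0.kind 0 = .stochastic := rfl
  have k1 : G0.kind 1 = .player 0 := rfl
  have k2 : G0.kind 2 = .player 1 := rfl
  have k3 : G0.kind 3 = .player 2 := rfl
  have k4 : G0.kind 4 = .terminal := rfl
  have k5 : G0.kind 5 = .terminal := rfl
  have k6 : G0.kind 6 = .terminal := rfl
  have k7 : G0.kind 7 = .terminal := rfl
  have pr : ∀ v, G0.prob 0 v = if v = 1 ∨ v = 2 then 1 / 2 else 0 := by intro v; simp [G0]
  have v0 : ∀ n, val G0 τ i (n + 1) [] 0 = (val G0 τ i n [0] 1 + val G0 τ i n [0] 2) / 2 := by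
    intro n
    rw [val]; simp [k0, pr, Fin.sum_univ_eight]; ring
  have v1 : ∀ n, val G0 τ i (n + 1) [0] 1 =
      (1 - s) * val G0 τ i n [1, 0] 3 + s * val G0 τ i n [1, 0] 4 := by
    intro n
    rw [val]; simp [k1, e1, Fin.sum_univ_eight]
  have v2 : ∀ n, val G0 τ i (n + 1) [0] 2 =
      (1 - t) * val G0 τ i n [2, 0] 3 + t * val G0 τ i n [2, 0] 5 := by
    intro n
    rw [val]; simp [k2, e2, Fin.sum_univ_eight]
  have v3 : ∀ n, val G0 τ i (n + 1) [1, 0] 3 =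
      (1 - q) * val G0 τ i n [3, 1, 0] 6 + q * val G0 τ i n [3, 1, 0] 7 := by
    intro n
    rw [val]; simp [k3, e3, Fin.sum_univ_eight]
  have v4 : ∀ n, val G0 τ i (n + 1) [2, 0] 3 =
      (1 - p) * val G0 τ i n [3, 2, 0] 6 + p * val G0 τ i n [3, 2, 0] 7 := by
    intro n
    rw [val]; simp [k3, e4, Fin.sum_univ_eight]
  have w4 : ∀ n h, val G0 τ i (n + 1) h 4 = G0.rew 4 i := by intro n h; rw [val]; simp [k4]
  have w5 : ∀ n h, val G0 τ i (n + 1) h 5 = G0.rew 5 i := by intro n h; rw [val]; simp [k5]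
  have w6 : ∀ n h, val G0 τ i (n + 1) h 6 = G0.rew 6 i := by intro n h; rw [val]; simp [k6]
  have w7 : ∀ n h, val G0 τ i (n + 1) h 7 = G0.rew 7 i := by intro n h; rw [val]; simp [k7]
  have z : ∀ h u, val G0 τ i 0 h u = 0 := fun _ _ => rfl
  have r4 : (0 : ℝ) ≤ G0.rew 4 i := by exact_mod_cast (G0.rew_mem 4 i).1
  have r5 : (0 : ℝ) ≤ G0.rew 5 i := by exact_mod_cast (G0.rew_mem 5 i).1
  have r6 : (0 : ℝ) ≤ G0.rew 6 i := by exact_mod_cast (G0.rew_mem 6 i).1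
  have r7 : (0 : ℝ) ≤ G0.rew 7 i := by exact_mod_cast (G0.rew_mem 7 i).1
  have s2 : 0 ≤ 1 - s := by linarith
  have t2 : 0 ≤ 1 - t := by linarith
  have q2 : 0 ≤ 1 - q := by linarith
  have p2 : 0 ≤ 1 - p := by linarith
  refine ⟨by rw [v0, v1, v2, v3, v4, w4, w5, w6, w7, w6, w7, F]; ring, ?_⟩
  intro j hj
  have n1 : 0 ≤ (1 - s) * ((1 - q) * G0.rew 6 i + q * G0.rew 7 i) := by positivity
  have n2 : 0 ≤ (1 - t) * ((1 - p) * G0.rew 6 i + p * G0.rew 7 i) := by positivity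
  have n3 : 0 ≤ s * G0.rew 4 i := by positivity
  have n4 : 0 ≤ t * G0.rew 5 i := by positivity
  interval_cases j
  · rw [z, F]; linarith
  · rw [v0, z, z, F]; linarith
  · rw [v0, v1, v2, z, z, z, z, F]; linarith
  · rw [v0, v1, v2, v3, v4, w4, w5, z, z, z, z, F]; linarith

lemma pay_eq (τ) (hτ : Valid G0 τ) (i : Fin 4) :
    pay G0 τ i = F i (τ [0] 1 4) (τ [0] 2 5) (τ [1, 0] 3 7) (τ [2, 0] 3 7) := by
  have h : ∀ n, val G0 τ i n [] G0.init ≤
      F i (τ [0] 1 4) (τ [0] 2 5) (τ [1, 0] 3 7) (τ [2, 0] 3 7) := by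
    intro n
    by_cases hn : n < 4
    · exact (val_eq τ hτ i 0).2 n hn
    · obtain ⟨n, rfl⟩ : ∃ j, n = j + 4 := ⟨n - 4, by omega⟩
      exact (val_eq τ hτ i n).1.le
  refine le_antisymm (ciSup_le h) ?_
  rw [← (val_eq τ hτ i 0).1]
  exact le_ciSup (f := fun n => val G0 τ i n [] G0.init) ⟨_, by rintro _ ⟨n, rfl⟩; exact h n⟩ 4

lemma F0 (s t q p : ℝ) : F 0 s t q p = ((1 - s) * q + (1 - t) * p) / 4 := by simp [F, G0]; ring
lemma F1 (s t q p : ℝ) : F 1 s t q p = ((1 - s) * (1 + q) + (1 - t) * (1 + p)) / 4 := by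
  simp [F, G0]; ring
lemma F2 (s t q p : ℝ) : F 2 s t q p = (s + t) / 2 := by simp [F, G0]; ring
lemma F3 (s t q p : ℝ) : F 3 s t q p = ((1 - s) * (1 + q) + t + (1 - t) * (1 + p)) / 4 := by
  simp [F, G0]; ring

def mk (s t q : ℝ) : Fin 8 → Fin 8 → ℝ :=
  ![0, ![0, 0, 0, 1 - s, s, 0, 0, 0], ![0, 0, 0, 1 - t, 0, t, 0, 0], ![0, 0, 0, 0, 0, 0, 1 - q, q],
    0, 0, 0, 0]

lemma mk_valid (s t q : ℝ) (s0 : 0 ≤ s) (s1 : s ≤ 1) (t0 : 0 ≤ t) (t1 : t ≤ 1) (q0 : 0 ≤ q)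
    (q1 : q ≤ 1) : Valid G0 (fun _ => mk s t q) := by
  intro h u i hu
  fin_cases u <;> simp [G0] at hu <;>
  · refine ⟨fun v => ?_, fun v hv => ?_, ?_⟩
    · fin_cases v <;> simp [mk] <;> linarith
    · fin_cases v <;> simp_all [mk, G0]
    · simp [mk, Fin.sum_univ_eight]

lemma dev (σ : Fin 8 → Fin 8 → ℝ) (hσ : Valid G0 fun _ => σ) (u : Fin 8) (i : Fin 4)
    (hu : G0.kind u = .player i) (he : G0.edge u 3) :
    Valid G0 (fun _ => Function.update σ u (Pi.single 3 1)) ∧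
      ∀ (_ : List (Fin 8)) w, G0.kind w ≠ .player i → Function.update σ u (Pi.single 3 1) w = σ w := by
  constructor
  · intro h w j hw
    by_cases e : w = u
    · subst e
      simp only [Function.update_self]
      refine ⟨fun v => ?_, fun v hv => ?_, by simp⟩
      · by_cases hv : v = 3 <;> simp [hv]
      · rw [Pi.single_eq_of_ne]
        rintro rfl
        exact hv he
    · simp only [Function.update_of_ne e]
      exact hσ h w j hw
  · intro _ w hw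
    rw [Function.update_of_ne]
    rintro rfl
    exact hw hu

theorem result : ∃ (k m : ℕ) (G : Game k m) (x y : Fin k → ℚ) (ε : ℚ), 0 < ε ∧
    (∃ σ, Good G x y ε σ) ∧
    ∀ σ, Good G x y ε σ → ∃ u v i, G.kind u = .player i ∧ Irrational (σ u v) := by
  refine ⟨4, 8, G0, ![0, 0, 1 / 2, 1 / 2], ![1, 1, 1 / 2, 1 / 2], 1 / 8, by norm_num, ?_, ?_⟩
  · set s : ℝ := √2 / 2 with hs
    have h2 : s * s = 1 / 2 := by
      rw [hs]; have := Real.mul_self_sqrt (show (0 : ℝ) ≤ 2 by norm_num); nlinarith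
    have s0 : 0 ≤ s := by positivity
    have s1 : s ≤ 1 := by nlinarith
    have hv := mk_valid s (1 - s) s s0 s1 (by linarith) (by linarith) s0 s1
    have m1 : mk s (1 - s) s 1 4 = s := rfl
    have m2 : mk s (1 - s) s 2 5 = 1 - s := rfl
    have m3 : mk s (1 - s) s 3 7 = s := rfl
    refine ⟨mk s (1 - s) s, hv, fun i => ?_, fun i τ hτ h => ?_⟩
    · rw [pay_eq _ hv, m1, m2, m3]
      fin_cases i
      · simp [F0]; constructor <;> nlinarith
      · simp [F1]; constructor <;> nlinarith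
      · simp [F2]
      · simp [F3]; constructor <;> nlinarith
    · rw [pay_eq _ hv, pay_eq _ hτ, m1, m2, m3]
      obtain ⟨⟨a0, a1, -⟩, ⟨b0, b1, -⟩, -⟩ := facts τ hτ [0]
      fin_cases i
      · rw [h [0] 2 (by decide), h [1, 0] 3 (by decide), h [2, 0] 3 (by decide), m2, m3]
        simp [F0]; nlinarith
      · rw [h [0] 1 (by decide), h [1, 0] 3 (by decide), h [2, 0] 3 (by decide), m1, m3]
        simp [F1]; nlinarith
      · rw [h [0] 1 (by decide), h [0] 2 (by decide), m1, m2]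
        simp [F2]
      · rw [h [0] 1 (by decide), h [0] 2 (by decide), h [1, 0] 3 (by decide), h [2, 0] 3 (by decide),
          m1, m2, m3]
        simp
  · rintro σ ⟨hv, hc, hd⟩
    refine ⟨1, 4, 0, rfl, ?_⟩
    have c2 := hc 2
    have c3 := hc 3
    have d0 := hd 0 _ (dev σ hv 1 0 rfl (by simp [G0])).1 (dev σ hv 1 0 rfl (by simp [G0])).2
    have d1 := hd 1 _ (dev σ hv 2 1 rfl (by simp [G0])).1 (dev σ hv 2 1 rfl (by simp [G0])).2
    rw [pay_eq _ hv] at c2 c3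
    rw [pay_eq _ hv, pay_eq _ (dev σ hv 1 0 rfl (by simp [G0])).1] at d0
    rw [pay_eq _ hv, pay_eq _ (dev σ hv 2 1 rfl (by simp [G0])).1] at d1
    simp [F0, F1, F2, F3, Function.update] at c2 c3 d0 d1
    obtain ⟨⟨a0, -, -⟩, -, -⟩ := facts _ hv []
    generalize σ 1 4 = s at *
    generalize σ 2 5 = t at *
    generalize σ 3 7 = q at *
    obtain rfl : t = 1 - s := by linarith [c2.1, c2.2]
    obtain rfl : q = s := by nlinarith [c3.1, c3.2]
    have h2 : q * q = 1 / 2 := by nlinarith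
    have : q = √2 / 2 := by
      have h3 : (2 * q) = √2 := by
        rw [eq_comm, Real.sqrt_eq_iff_mul_self_eq (by norm_num) (by linarith)]; nlinarith
      linarith
    rw [this]
    exact irrational_sqrt_two.div_natCast (m := 2) (by norm_num)

end Pool.Agent.Results.MP_3b7dc8_lc.Irrational
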